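import Pool.Agent.Lib.H40FS.F0

/-!
# H40FS: the final step of (E) (a vertex beyond a side of a convex polygon)

`c 1, .., c m` in convex position, `u` another vertex. The rays `u c_1` and `u c_m` cross no chord and no
side, they start outside, and every other ray `u c_s` crosses `c_1 c_m` or an edge of the path. Then
`u, c_1, .., c_m` are in convex position: `u c_j` crosses `c_i c_k` for `i < j < k`.

Proof. A ray `u c_s` is bad if it does not cross `c_1 c_m`; then it crosses an edge `c_l c_(l+1)` of the path.
If `s < l` then `u c_l` is bad and crosses an edge `c_p c_(p+1)` with `s ≤ p`, `p + 1 < l` (finite facts on at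
most seven points); the mirror image of this is nearer: descent on the distance.
-/

set_option autoImplicit false

namespace H30P

open H53P

variable {V : Type*}

/-- the situation of the final step -/
structure FSH (T : Table V) (u : V) (c : ℕ → V) (m : ℕ) : Prop where
  hm : 4 ≤ m
  hu : ∀ i, 1 ≤ i → i ≤ m → c i ≠ u
  hc : ∀ i j, 1 ≤ i → i < j → j ≤ m → c i ≠ c j
  conv : ∀ i j k l, 1 ≤ i → i < j → j < k → k < l → l ≤ m → T.X (c i) (c k) (c j) (c l) = true
  h1 : ∀ i j, 1 ≤ i → i ≤ m → 1 ≤ j → j ≤ m → T.X u (c 1) (c i) (c j) = false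
  hm1 : ∀ i j, 1 ≤ i → i ≤ m → 1 ≤ j → j ≤ m → T.X u (c m) (c i) (c j) = false
  a1 : ∀ j, 2 < j → j < m → T.alt (c 1) (c 2) (c m) (c j) u = true
  am : ∀ j, 1 < j → j < m - 1 → T.alt (c m) (c (m - 1)) (c 1) (c j) u = true
  h2 : ∀ s, 1 < s → s < m → (∀ i, 1 ≤ i → i < m → T.X u (c s) (c i) (c (i + 1)) = false) →
    T.X u (c s) (c 1) (c m) = true

namespace FSH

variable {T : Table V} {u : V} {c : ℕ → V} {m : ℕ}

/-- the mirror image -/
theorem rev (H : FSH T u c m) : FSH T u (fun i => c (m + 1 - i)) m where
  hm := H.hm
  hu i h1 h2 := H.hu _ (by omega) (by omega)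
  hc i j h1 h2 h3 := (H.hc _ _ (by omega) (by omega) (by omega)).symm
  conv i j k l h1 h2 h3 h4 h5 := by
    have h := H.conv (m + 1 - l) (m + 1 - k) (m + 1 - j) (m + 1 - i) (by omega) (by omega) (by omega)
      (by omega) (by omega)
    show T.X (c (m + 1 - i)) (c (m + 1 - k)) (c (m + 1 - j)) (c (m + 1 - l)) = true
    rw [T.symm2, T.symm1, T.symm2, T.symm1, T.symm2]
    exact h
  h1 i j h1 h2 h3 h4 := by
    have h := H.hm1 (m + 1 - i) (m + 1 - j) (by omega) (by omega) (by omega) (by omega)
    have e : m + 1 - 1 = m := by omega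
    show T.X u (c (m + 1 - 1)) (c (m + 1 - i)) (c (m + 1 - j)) = false
    rw [e]
    exact h
  hm1 i j h1 h2 h3 h4 := by
    have h := H.h1 (m + 1 - i) (m + 1 - j) (by omega) (by omega) (by omega) (by omega)
    have e : m + 1 - m = 1 := by omega
    show T.X u (c (m + 1 - m)) (c (m + 1 - i)) (c (m + 1 - j)) = false
    rw [e]
    exact h
  a1 j h1 h2 := by
    have h := H.am (m + 1 - j) (by omega) (by omega)
    have e : m + 1 - 1 = m := by omega
    have e2 : m + 1 - 2 = m - 1 := by omega
    have e3 : m + 1 - m = 1 := by omega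
    show T.alt (c (m + 1 - 1)) (c (m + 1 - 2)) (c (m + 1 - m)) (c (m + 1 - j)) u = true
    rw [e, e2, e3]
    exact h
  am j h1 h2 := by
    have h := H.a1 (m + 1 - j) (by omega) (by omega)
    have h5 := H.hm
    have e : m + 1 - 1 = m := by omega
    have e2 : m + 1 - (m - 1) = 2 := by omega
    have e3 : m + 1 - m = 1 := by omega
    show T.alt (c (m + 1 - m)) (c (m + 1 - (m - 1))) (c (m + 1 - 1)) (c (m + 1 - j)) u = true
    rw [e, e2, e3]
    exact h
  h2 s h1 h2 h3 := by
    have e : m + 1 - 1 = m := by omega
    have e3 : m + 1 - m = 1 := by omega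
    show T.X u (c (m + 1 - s)) (c (m + 1 - 1)) (c (m + 1 - m)) = true
    rw [e, e3, T.symm2, T.symm1, T.symm2]
    refine H.h2 (m + 1 - s) (by omega) (by omega) fun i i1 i2 => ?_
    have h := h3 (m - i) (by omega) (by omega)
    have e4 : m + 1 - (m - i) = i + 1 := by omega
    have e5 : m + 1 - (m - i + 1) = i := by omega
    have h' : T.X u (c (m + 1 - s)) (c (m + 1 - (m - i))) (c (m + 1 - (m - i + 1))) = false := h
    rw [e4, e5] at h'
    rw [T.symm2, T.symm1, T.symm2]
    exact h'

theorem nd (H : FSH T u c m) {L : List ℕ} (hL : L.Pairwise (· < ·)) (hb : ∀ i ∈ L, 1 ≤ i ∧ i ≤ m) :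
    (u :: L.map c).Nodup := by
  rw [List.nodup_cons]
  constructor
  · intro h
    obtain ⟨i, hi, he⟩ := List.mem_map.1 h
    exact H.hu i (hb i hi).1 (hb i hi).2 he
  · refine List.Pairwise.map c (fun a b h => h) ?_
    refine hL.imp_of_mem ?_
    intro a b ha hb' hab
    exact H.hc a b (hb a ha).1 hab (hb b hb').2

/-- adjacent edges do not cross -/
theorem adj0 {a b d : V} (T : Table V) : T.X a b b d = false := by
  cases h : T.X a b b d with
  | false => rfl
  | true => exact absurd rfl (T.ne _ _ _ _ h).2.2.2.2.1

theorem adj1 {a b d : V} (T : Table V) : T.X a b d b = false := by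
  cases h : T.X a b d b with
  | false => rfl
  | true => exact absurd rfl (T.ne _ _ _ _ h).2.2.2.2.2

theorem altm (H : FSH T u c m) {i j : ℕ} (h2 : 2 ≤ i) (hij : i < j) (hj : j < m) :
    T.alt (c 1) (c i) (c m) (c j) u = true := by
  rcases Nat.lt_or_ge 2 i with h | h
  · cases hh : T.alt (c 1) (c i) (c m) (c j) u with
    | true => rfl
    | false =>
      exact (fs_g2 (T := T) (u := u) (a := c 1) (h := c 2) (g := c i) (j := c j) (b := c m)
        (H.nd (L := [1, 2, i, j, m]) (by simp; omega) (by simp; omega))
        (H.conv 1 2 i j (by omega) (by omega) (by omega) (by omega) (by omega))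
        (H.conv 1 2 j m (by omega) (by omega) (by omega) (by omega) (by omega))
        (H.conv 1 i j m (by omega) (by omega) (by omega) (by omega) (by omega))
        (H.a1 i (by omega) (by omega)) (H.a1 j (by omega) (by omega)) hh).elim
  · have e : i = 2 := by omega
    rw [e]
    exact H.a1 j (by omega) hj

theorem altg (H : FSH T u c m) {i j k : ℕ} (h2 : 2 ≤ i) (hij : i < j) (hj : j < k) (hk : k ≤ m) :
    T.alt (c 1) (c i) (c k) (c j) u = true := by
  rcases Nat.lt_or_ge k m with h | h
  · cases hh : T.alt (c 1) (c i) (c k) (c j) u with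
    | true => rfl
    | false =>
      exact (fs_g1 (T := T) (u := u) (a := c 1) (g := c i) (j := c j) (k := c k) (b := c m)
        (H.nd (L := [1, i, j, k, m]) (by simp; omega) (by simp; omega))
        (H.conv 1 i j k (by omega) (by omega) (by omega) (by omega) (by omega))
        (H.conv 1 i k m (by omega) (by omega) (by omega) (by omega) (by omega))
        (H.conv 1 j k m (by omega) (by omega) (by omega) (by omega) (by omega))
        (H.altm h2 hij (by omega)) (H.altm h2 (by omega) h) hh).elim
  · have e : k = m := by omega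
    rw [e]
    exact H.altm h2 hij (by omega)

/-- if `u c_s` crosses `c_l c_(l+1)`, `s < l`, then `u c_l` does not cross `c_1 c_m` -/
theorem bad (H : FSH T u c m) {s l : ℕ} (hs : 1 < s) (hsl : s < l) (hl : l < m)
    (hx : T.X u (c s) (c l) (c (l + 1)) = true) : T.X u (c l) (c 1) (c m) = false := by
  cases hh : T.X u (c l) (c 1) (c m) with
  | false => rfl
  | true =>
    rcases Nat.lt_or_ge (l + 1) m with h | h
    · exact (fs_a6 (T := T) (u := u) (a := c 1) (s := c s) (l := c l) (k := c (l + 1)) (b := c m)
        (H.nd (L := [1, s, l, l + 1, m]) (by simp; omega) (by simp; omega))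
        (H.conv 1 s l m (by omega) (by omega) (by omega) (by omega) (by omega))
        (H.conv s l (l + 1) m (by omega) (by omega) (by omega) (by omega) (by omega))
        (H.altg (by omega) hsl hl le_rfl) hx hh).elim
    · have e : l + 1 = m := by omega
      rw [e] at hx
      exact (fs_a5 (T := T) (u := u) (a := c 1) (s := c s) (l := c l) (b := c m)
        (H.nd (L := [1, s, l, m]) (by simp; omega) (by simp; omega))
        (H.conv 1 s l m (by omega) (by omega) (by omega) (by omega) (by omega))
        (H.altg (by omega) hsl hl le_rfl) hx hh).elim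

/-- the edge crossed by `u c_l` is between `s` and `l` -/
theorem next (H : FSH T u c m) {s l p : ℕ} (hs : 1 < s) (hsl : s < l) (hl : l < m)
    (hx : T.X u (c s) (c l) (c (l + 1)) = true) (hp1 : 1 ≤ p) (hpm : p < m)
    (hy : T.X u (c l) (c p) (c (p + 1)) = true) : s ≤ p ∧ p + 1 < l := by
  have n1 : p ≠ l := by
    rintro rfl
    rw [adj0] at hy
    cases hy
  have n2 : p + 1 ≠ l := by
    intro h
    rw [h, adj1] at hy
    cases hy
  have B1 : ¬ p + 1 ≤ s := by
    intro h
    rcases Nat.lt_or_ge (p + 1) s with h3 | h3
    · rcases Nat.lt_or_ge 1 p with h4 | h4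
      · exact fs_b1a (T := T) (u := u) (a := c 1) (p := c p) (q := c (p + 1)) (s := c s) (l := c l)
          (k := c (l + 1))
          (H.nd (L := [1, p, p + 1, s, l, l + 1]) (by simp; omega) (by simp; omega))
          (H.conv 1 p (p + 1) (l + 1) (by omega) (by omega) (by omega) (by omega) (by omega))
          (H.conv 1 p l (l + 1) (by omega) (by omega) (by omega) (by omega) (by omega))
          (H.conv 1 (p + 1) s l (by omega) (by omega) (by omega) (by omega) (by omega))
          (H.conv 1 (p + 1) s (l + 1) (by omega) (by omega) (by omega) (by omega) (by omega))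
          (H.conv 1 (p + 1) l (l + 1) (by omega) (by omega) (by omega) (by omega) (by omega))
          (H.conv 1 s l (l + 1) (by omega) (by omega) (by omega) (by omega) (by omega))
          (H.conv p (p + 1) l (l + 1) (by omega) (by omega) (by omega) (by omega) (by omega))
          (H.h1 _ _ (by omega) (by omega) (by omega) (by omega))
          (H.h1 _ _ (by omega) (by omega) (by omega) (by omega)) hx hy
      · have e : p = 1 := by omega
        rw [e] at hy h3
        exact fs_b1b (T := T) (u := u) (a := c 1) (q := c (1 + 1)) (s := c s) (l := c l)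
          (k := c (l + 1))
          (H.nd (L := [1, 1 + 1, s, l, l + 1]) (by simp; omega) (by simp; omega))
          (H.conv 1 (1 + 1) l (l + 1) (by omega) (by omega) (by omega) (by omega) (by omega))
          (H.conv 1 s l (l + 1) (by omega) (by omega) (by omega) (by omega) (by omega))
          (H.conv (1 + 1) s l (l + 1) (by omega) (by omega) (by omega) (by omega) (by omega))
          (H.altg (by omega) (by omega) (by omega) (by omega))
          (H.h1 _ _ (by omega) (by omega) (by omega) (by omega)) hx hy
    · have e : p + 1 = s := by omega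
      rw [e] at hy
      exact fs_b1c (T := T) (u := u) (p := c p) (s := c s) (l := c l) (k := c (l + 1))
        (H.nd (L := [p, s, l, l + 1]) (by simp; omega) (by simp; omega))
        (H.conv p s l (l + 1) (by omega) (by omega) (by omega) (by omega) (by omega)) hx hy
  have B2 : ¬ l + 1 ≤ p := by
    intro h
    rcases Nat.lt_or_ge (l + 1) p with h3 | h3
    · exact fs_b2a (T := T) (u := u) (a := c 1) (s := c s) (l := c l) (k := c (l + 1)) (p := c p)
        (q := c (p + 1))
        (H.nd (L := [1, s, l, l + 1, p, p + 1]) (by simp; omega) (by simp; omega))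
        (H.conv 1 s l p (by omega) (by omega) (by omega) (by omega) (by omega))
        (H.conv 1 s (l + 1) p (by omega) (by omega) (by omega) (by omega) (by omega))
        (H.conv 1 s p (p + 1) (by omega) (by omega) (by omega) (by omega) (by omega))
        (H.conv 1 l (l + 1) (p + 1) (by omega) (by omega) (by omega) (by omega) (by omega))
        (H.conv 1 l p (p + 1) (by omega) (by omega) (by omega) (by omega) (by omega))
        (H.conv 1 (l + 1) p (p + 1) (by omega) (by omega) (by omega) (by omega) (by omega))
        (H.conv s l (l + 1) p (by omega) (by omega) (by omega) (by omega) (by omega))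
        (H.h1 _ _ (by omega) (by omega) (by omega) (by omega))
        (H.h1 _ _ (by omega) (by omega) (by omega) (by omega)) hx hy
    · have e : p = l + 1 := by omega
      rw [e] at hy
      exact fs_b2b (T := T) (u := u) (a := c 1) (s := c s) (l := c l) (k := c (l + 1))
        (q := c (l + 1 + 1))
        (H.nd (L := [1, s, l, l + 1, l + 1 + 1]) (by simp; omega) (by simp; omega))
        (H.conv 1 s l (l + 1) (by omega) (by omega) (by omega) (by omega) (by omega))
        (H.conv 1 s l (l + 1 + 1) (by omega) (by omega) (by omega) (by omega) (by omega))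
        (H.conv 1 l (l + 1) (l + 1 + 1) (by omega) (by omega) (by omega) (by omega) (by omega))
        (H.conv s l (l + 1) (l + 1 + 1) (by omega) (by omega) (by omega) (by omega) (by omega))
        (H.h1 _ _ (by omega) (by omega) (by omega) (by omega))
        (H.h1 _ _ (by omega) (by omega) (by omega) (by omega))
        (H.h1 _ _ (by omega) (by omega) (by omega) (by omega)) hx hy
  omega

/-- the descent -/
theorem desc : ∀ (d : ℕ) (c : ℕ → V), FSH T u c m → ∀ s l, 1 < s → s < l → l < m → l ≤ s + d →
    T.X u (c s) (c l) (c (l + 1)) = true → False := by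
  intro d
  induction d with
  | zero => intro c _ s l _ h _ h'; omega
  | succ d ih =>
    intro c H s l hs hsl hl hd hx
    have hb := H.bad hs hsl hl hx
    by_cases hn : ∀ i, 1 ≤ i → i < m → T.X u (c l) (c i) (c (i + 1)) = false
    · rw [H.h2 l (by omega) hl hn] at hb
      cases hb
    · push Not at hn
      obtain ⟨p, hp1, hpm, hy⟩ := hn
      have hy' : T.X u (c l) (c p) (c (p + 1)) = true := by
        cases h : T.X u (c l) (c p) (c (p + 1)) with
        | true => rfl
        | false => exact absurd h hy
      obtain ⟨k1, k2⟩ := H.next hs hsl hl hx hp1 hpm hy'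
      refine ih (fun i => c (m + 1 - i)) H.rev (m + 1 - l) (m + 1 - (p + 1)) (by omega) (by omega)
        (by omega) (by omega) ?_
      have e1 : m + 1 - (m + 1 - l) = l := by omega
      have e2 : m + 1 - (m + 1 - (p + 1)) = p + 1 := by omega
      have e3 : m + 1 - (m + 1 - (p + 1) + 1) = p := by omega
      show T.X u (c (m + 1 - (m + 1 - l))) (c (m + 1 - (m + 1 - (p + 1))))
        (c (m + 1 - (m + 1 - (p + 1) + 1))) = true
      rw [e1, e2, e3, T.symm2, T.symm1, T.symm2]
      exact hy'

/-- every ray crosses `c_1 c_m` -/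
theorem good (H : FSH T u c m) {s : ℕ} (hs : 1 < s) (hm : s < m) : T.X u (c s) (c 1) (c m) = true := by
  by_cases hn : ∀ i, 1 ≤ i → i < m → T.X u (c s) (c i) (c (i + 1)) = false
  · exact H.h2 s hs hm hn
  · exfalso
    push Not at hn
    obtain ⟨p, hp1, hpm, hy⟩ := hn
    have hy' : T.X u (c s) (c p) (c (p + 1)) = true := by
      cases h : T.X u (c s) (c p) (c (p + 1)) with
      | true => rfl
      | false => exact absurd h hy
    have n1 : p ≠ s := by
      rintro rfl
      rw [adj0] at hy'
      cases hy'
    have n2 : p + 1 ≠ s := by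
      intro h
      rw [h, adj1] at hy'
      cases hy'
    rcases Nat.lt_or_ge s p with h | h
    · exact desc m c H s p hs h hpm (by omega) hy'
    · refine desc m (fun i => c (m + 1 - i)) H.rev (m + 1 - s) (m + 1 - (p + 1)) (by omega) (by omega)
        (by omega) (by omega) ?_
      have e1 : m + 1 - (m + 1 - s) = s := by omega
      have e2 : m + 1 - (m + 1 - (p + 1)) = p + 1 := by omega
      have e3 : m + 1 - (m + 1 - (p + 1) + 1) = p := by omega
      show T.X u (c (m + 1 - (m + 1 - s))) (c (m + 1 - (m + 1 - (p + 1))))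
        (c (m + 1 - (m + 1 - (p + 1) + 1))) = true
      rw [e1, e2, e3, T.symm2, T.symm1, T.symm2]
      exact hy'

/-- [FS] -/
theorem concl (H : FSH T u c m) {i j k : ℕ} (hi : 1 ≤ i) (hij : i < j) (hjk : j < k) (hk : k ≤ m) :
    T.X u (c j) (c i) (c k) = true := by
  have gj := H.good (s := j) (by omega) (by omega)
  cases hh : T.X u (c j) (c i) (c k) with
  | true => rfl
  | false =>
    exfalso
    rcases Nat.lt_or_ge 1 i with h3 | h3
    · rcases Nat.lt_or_ge k m with h4 | h4
      · exact fs_c3 (T := T) (u := u) (a := c 1) (g := c i) (j := c j) (k := c k) (b := c m)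
          (H.nd (L := [1, i, j, k, m]) (by simp; omega) (by simp; omega))
          (H.conv 1 i j k (by omega) (by omega) (by omega) (by omega) (by omega))
          (H.conv 1 i k m (by omega) (by omega) (by omega) (by omega) (by omega))
          (H.conv 1 j k m (by omega) (by omega) (by omega) (by omega) (by omega))
          (H.conv i j k m (by omega) (by omega) (by omega) (by omega) (by omega))
          (H.altg (by omega) hjk h4 le_rfl) gj hh
      · have e : k = m := by omega
        rw [e] at hh
        exact fs_c2 (T := T) (u := u) (a := c 1) (g := c i) (j := c j) (b := c m)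
          (H.nd (L := [1, i, j, m]) (by simp; omega) (by simp; omega))
          (H.conv 1 i j m (by omega) (by omega) (by omega) (by omega) (by omega))
          (H.altg (by omega) hij (by omega) le_rfl) gj hh
    · have e : i = 1 := by omega
      rw [e] at hh
      rcases Nat.lt_or_ge k m with h4 | h4
      · exact fs_c1 (T := T) (u := u) (a := c 1) (j := c j) (k := c k) (b := c m)
          (H.nd (L := [1, j, k, m]) (by simp; omega) (by simp; omega))
          (H.conv 1 j k m (by omega) (by omega) (by omega) (by omega) (by omega))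
          (H.altg (by omega) hjk h4 le_rfl) gj hh
      · have e : k = m := by omega
        rw [e, gj] at hh
        cases hh

end FSH

/-- [FS] with explicit hypotheses -/
theorem fs {T : Table V} {u : V} {c : ℕ → V} {m : ℕ} (hm : 4 ≤ m)
    (hu : ∀ i, 1 ≤ i → i ≤ m → c i ≠ u) (hc : ∀ i j, 1 ≤ i → i < j → j ≤ m → c i ≠ c j)
    (conv : ∀ i j k l, 1 ≤ i → i < j → j < k → k < l → l ≤ m → T.X (c i) (c k) (c j) (c l) = true)
    (h1 : ∀ i j, 1 ≤ i → i ≤ m → 1 ≤ j → j ≤ m → T.X u (c 1) (c i) (c j) = false)
    (hm1 : ∀ i j, 1 ≤ i → i ≤ m → 1 ≤ j → j ≤ m → T.X u (c m) (c i) (c j) = false)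
    (a1 : ∀ j, 2 < j → j < m → T.alt (c 1) (c 2) (c m) (c j) u = true)
    (am : ∀ j, 1 < j → j < m - 1 → T.alt (c m) (c (m - 1)) (c 1) (c j) u = true)
    (h2 : ∀ s, 1 < s → s < m → (∀ i, 1 ≤ i → i < m → T.X u (c s) (c i) (c (i + 1)) = false) →
      T.X u (c s) (c 1) (c m) = true) :
    ∀ i j k, 1 ≤ i → i < j → j < k → k ≤ m → T.X u (c j) (c i) (c k) = true :=
  fun _ _ _ a b d e => (FSH.mk hm hu hc conv h1 hm1 a1 am h2).concl a b d e

end H30P
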