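import Pool.Agent.Lib.H40FS.FS
import Pool.Agent.Lib.H40FS.F1

/-!
# H40FS: the cut-off lemma

`c 1, .., c n` in convex position, `k` another vertex; the edge `c_1 c_n` is the door of `k` (`tri`: if the ray
`k c_x` crosses the door then `k` is in the triangle `c_x c_1 c_n`, that is, separated from all other vertices).

For a ray `k c_x` which crosses the door put `g t = T.X k (c x) (c 1) (c t)`, `1 < t < x`: it is monotone, and
the ray crosses `c_t c_(t+1)`, `t + 1 < x`, exactly when `g` changes from `false` to `true` (`g 1 = false`).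

* `cut`: if `k c_x` crosses the door and `c_e c_(e+1)`, `e + 1 < x`, then for every `e < y < x` the ray `k c_y`
  crosses the door, on the door `k c_x` comes before `k c_y` seen from `c_1`, and an edge `c_t c_(t+1)` of the
  path which is crossed by `k c_y` has `e ≤ t < x`.
* `direct`: some `e < y < x` is such that `k c_y` crosses the door and no other edge of the polygon.
* `cut'`, `direct'`: the mirror images (`x < e`).
* `ord`: two rays `k c_x`, `k c_z`, `x < z`, through the door which do not cut off each other: `k c_x` comes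
  before `k c_z` on the door, seen from `c_1`.
* `same`: if `k c_x`, `k c_y` cross the door and `c_t c_(t+1)`, `t + 1 < y < x`, then seen from `c_t` the ray
  `k c_x` comes before `k c_y` on `c_t c_(t+1)`.
-/

set_option autoImplicit false

namespace H30P

open H53P

variable {V : Type*}

/-- a convex polygon with the door `c_1 c_n` of `k` -/
structure DrH (T : Table V) (k : V) (c : ℕ → V) (n : ℕ) : Prop where
  hn : 3 ≤ n
  hk : ∀ i, 1 ≤ i → i ≤ n → c i ≠ k
  hc : ∀ i j, 1 ≤ i → i < j → j ≤ n → c i ≠ c j
  conv : ∀ i j k l, 1 ≤ i → i < j → j < k → k < l → l ≤ n → T.X (c i) (c k) (c j) (c l) = true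
  tri : ∀ x z, 1 < x → x < n → 1 < z → z < n → x ≠ z → T.X k (c x) (c 1) (c n) = true →
    T.crT (c x) (c 1) (c n) k (c z) = true

private theorem xfalse' {a b : Bool} (h : (a ^^ b) = true → False) : a = b := by
  cases a <;> cases b
  · rfl
  · exact (h rfl).elim
  · exact (h rfl).elim
  · rfl

theorem crT_swap (T : Table V) (a b c x y : V) : T.crT a b c x y = T.crT a c b x y := by
  unfold Table.crT crTX
  rw [T.symm2 x y a b, T.symm1 a b x y, T.symm2 b a x y, T.symm2 x y b c, T.symm1 b c x y,
    T.symm2 c b x y, T.symm2 x y c a, T.symm1 c a x y, T.symm2 a c x y]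
  cases T.X x y b a <;> cases T.X x y c b <;> cases T.X x y a c <;> rfl

theorem flip2 (T : Table V) (a b c d : V) : T.X a b c d = T.X a b d c := by
  rw [T.symm2, T.symm1, T.symm2]

namespace DrH

variable {T : Table V} {k : V} {c : ℕ → V} {n : ℕ}

/-- the mirror image -/
theorem rev (H : DrH T k c n) : DrH T k (fun i => c (n + 1 - i)) n where
  hn := H.hn
  hk i h1 h2 := H.hk _ (by omega) (by omega)
  hc i j h1 h2 h3 := (H.hc _ _ (by omega) (by omega) (by omega)).symm
  conv i j k l h1 h2 h3 h4 h5 := by
    have h := H.conv (n + 1 - l) (n + 1 - k) (n + 1 - j) (n + 1 - i) (by omega) (by omega) (by omega)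
      (by omega) (by omega)
    show T.X (c (n + 1 - i)) (c (n + 1 - k)) (c (n + 1 - j)) (c (n + 1 - l)) = true
    rw [T.symm2, T.symm1, T.symm2, T.symm1, T.symm2]
    exact h
  tri x z h1 h2 h3 h4 h5 h6 := by
    have e : n + 1 - 1 = n := by omega
    have e3 : n + 1 - n = 1 := by omega
    have h6' : T.X k (c (n + 1 - x)) (c (n + 1 - 1)) (c (n + 1 - n)) = true := h6
    rw [e, e3, flip2] at h6'
    show T.crT (c (n + 1 - x)) (c (n + 1 - 1)) (c (n + 1 - n)) k (c (n + 1 - z)) = true
    rw [e, e3, crT_swap]
    exact H.tri (n + 1 - x) (n + 1 - z) (by omega) (by omega) (by omega) (by omega) (by omega) h6'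

theorem nd (H : DrH T k c n) {L : List ℕ} (hL : L.Pairwise (· < ·)) (hb : ∀ i ∈ L, 1 ≤ i ∧ i ≤ n) :
    (k :: L.map c).Nodup := by
  rw [List.nodup_cons]
  constructor
  · intro h
    obtain ⟨i, hi, he⟩ := List.mem_map.1 h
    exact H.hk i (hb i hi).1 (hb i hi).2 he
  · refine List.Pairwise.map c (fun a b h => h) ?_
    refine hL.imp_of_mem ?_
    intro a b ha hb' hab
    exact H.hc a b (hb a ha).1 hab (hb b hb').2

/-- the function `g` of a ray through the door is monotone -/
theorem mono (H : DrH T k c n) {x t s : ℕ} (hx : x < n) (hd : T.X k (c x) (c 1) (c n) = true)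
    (ht : 1 < t) (hts : t ≤ s) (hs : s < x) (h : T.X k (c x) (c 1) (c t) = true) :
    T.X k (c x) (c 1) (c s) = true := by
  rcases Nat.lt_or_ge t s with h1 | h1
  · cases hh : T.X k (c x) (c 1) (c s) with
    | true => rfl
    | false =>
      exact (ct_m (T := T) (k := k) (a := c 1) (t := c t) (s := c s) (x := c x) (b := c n)
        (H.nd (L := [1, t, s, x, n]) (by simp; omega) (by simp; omega))
        (H.conv 1 t x n (by omega) (by omega) (by omega) (by omega) (by omega))
        (H.conv 1 s x n (by omega) (by omega) (by omega) (by omega) (by omega))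
        (H.conv t s x n (by omega) (by omega) (by omega) (by omega) (by omega))
        (H.tri x t (by omega) hx ht (by omega) (by omega) hd)
        (H.tri x s (by omega) hx (by omega) (by omega) (by omega) hd) h hh).elim
  · have e : t = s := by omega
    rw [← e]
    exact h

/-- a ray crosses `c_t c_s` exactly when `g` changes -/
theorem xr (H : DrH T k c n) {x t s : ℕ} (hx : x < n) (hd : T.X k (c x) (c 1) (c n) = true)
    (ht : 1 < t) (hts : t < s) (hs : s < x) :
    T.X k (c x) (c t) (c s) = (T.X k (c x) (c 1) (c t) ^^ T.X k (c x) (c 1) (c s)) := by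
  apply xfalse'
  intro h
  rw [← Bool.xor_assoc] at h
  exact ct_x (T := T) (k := k) (a := c 1) (t := c t) (s := c s) (x := c x) (b := c n)
    (H.nd (L := [1, t, s, x, n]) (by simp; omega) (by simp; omega))
    (H.conv 1 t s n (by omega) (by omega) (by omega) (by omega) (by omega))
    (H.conv 1 s x n (by omega) (by omega) (by omega) (by omega) (by omega))
    (H.conv t s x n (by omega) (by omega) (by omega) (by omega) (by omega))
    (H.tri x t (by omega) hx ht (by omega) (by omega) hd)
    (H.tri x s (by omega) hx (by omega) (by omega) (by omega) hd) h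

/-- the values of `g` at a crossed edge -/
theorem gcut (H : DrH T k c n) {x e : ℕ} (hx : x < n) (hd : T.X k (c x) (c 1) (c n) = true)
    (he : 1 ≤ e) (hex : e + 1 < x) (h : T.X k (c x) (c e) (c (e + 1)) = true) :
    T.X k (c x) (c 1) (c (e + 1)) = true ∧ (1 < e → T.X k (c x) (c 1) (c e) = false) := by
  rcases Nat.lt_or_ge 1 e with h1 | h1
  · have h2 := H.xr hx hd h1 (Nat.lt_succ_self e) hex
    have h2' : T.X k (c x) (c e) (c (e + 1)) =
      (T.X k (c x) (c 1) (c e) ^^ T.X k (c x) (c 1) (c (e + 1))) := h2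
    rw [h] at h2'
    cases hg : T.X k (c x) (c 1) (c e) with
    | false =>
      rw [hg, Bool.false_xor] at h2'
      exact ⟨h2'.symm, fun _ => rfl⟩
    | true =>
      have h3 := H.mono hx hd h1 (Nat.le_succ e) hex hg
      have h3' : T.X k (c x) (c 1) (c (e + 1)) = true := h3
      rw [hg, h3'] at h2'
      cases h2'
  · have e1 : e = 1 := by omega
    subst e1
    exact ⟨h, fun h => absurd h (by omega)⟩

/-- the mirror image of `gcut` -/
theorem gcut' (H : DrH T k c n) {x e : ℕ} (hx : 1 < x) (hxn : x < n)
    (hd : T.X k (c x) (c 1) (c n) = true)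
    (hex : x < e) (hen : e < n) (h : T.X k (c x) (c e) (c (e + 1)) = true) :
    T.X k (c x) (c n) (c e) = true ∧ (e + 1 < n → T.X k (c x) (c n) (c (e + 1)) = false) := by
  have e1 : n + 1 - 1 = n := by omega
  have e2 : n + 1 - n = 1 := by omega
  have e3 : n + 1 - (n + 1 - x) = x := by omega
  have e4 : n + 1 - (n - e) = e + 1 := by omega
  have e5 : n + 1 - (n - e + 1) = e := by omega
  have h1 := H.rev.gcut (x := n + 1 - x) (e := n - e) (by omega)
    (by
      show T.X k (c (n + 1 - (n + 1 - x))) (c (n + 1 - 1)) (c (n + 1 - n)) = true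
      rw [e1, e2, e3, flip2]
      exact hd)
    (by omega) (by omega)
    (by
      show T.X k (c (n + 1 - (n + 1 - x))) (c (n + 1 - (n - e))) (c (n + 1 - (n - e + 1))) = true
      rw [e3, e4, e5, flip2]
      exact h)
  have h2 : T.X k (c (n + 1 - (n + 1 - x))) (c (n + 1 - 1)) (c (n + 1 - (n - e + 1))) = true ∧
    (1 < n - e → T.X k (c (n + 1 - (n + 1 - x))) (c (n + 1 - 1)) (c (n + 1 - (n - e))) = false) := h1
  rw [e1, e3, e4, e5] at h2
  exact ⟨h2.1, fun h => h2.2 (by omega)⟩

/-- CUT-OFF LEMMA -/
theorem cut (H : DrH T k c n) {x e y : ℕ} (hx : x < n) (hd : T.X k (c x) (c 1) (c n) = true)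
    (he : 1 ≤ e) (hex : e + 1 < x) (h : T.X k (c x) (c e) (c (e + 1)) = true)
    (hey : e < y) (hyx : y < x) :
    T.X k (c y) (c 1) (c n) = true ∧ T.bef k (c 1) (c n) (c x) (c y) = true ∧
      ∀ t, 1 ≤ t → t < n → T.X k (c y) (c t) (c (t + 1)) = true → e ≤ t ∧ t < x := by
  obtain ⟨g1, g2⟩ := H.gcut hx hd he hex h
  have gy : T.X k (c x) (c 1) (c y) = true := H.mono hx hd (by omega) hey hyx g1
  have hN : (k :: [1, y, x, n].map c).Nodup := H.nd (L := [1, y, x, n]) (by simp; omega) (by simp; omega)
  have hcv : T.X (c 1) (c x) (c y) (c n) = true :=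
    H.conv 1 y x n (by omega) (by omega) (by omega) (by omega) (by omega)
  have hdy : T.X k (c y) (c 1) (c n) = true := by
    cases hh : T.X k (c y) (c 1) (c n) with
    | true => rfl
    | false =>
      exact (ct_d (T := T) (k := k) (a := c 1) (y := c y) (x := c x) (b := c n) hN hcv
        (H.tri x y (by omega) hx (by omega) (by omega) (by omega) hd) gy hh).elim
  refine ⟨hdy, ?_, ?_⟩
  · cases hh : T.bef k (c 1) (c n) (c x) (c y) with
    | true => rfl
    | false =>
      exact (ct_b (T := T) (k := k) (a := c 1) (y := c y) (x := c x) (b := c n) hN hcv gy hh).elim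
  · intro t ht1 htn ht
    have n1 : t ≠ y := by
      rintro rfl
      rw [FSH.adj0] at ht
      cases ht
    have n2 : t + 1 ≠ y := by
      intro h
      rw [h, FSH.adj1] at ht
      cases ht
    rcases Nat.lt_or_ge (t + 1) y with h3 | h3
    · refine ⟨?_, by omega⟩
      by_contra hlt
      obtain ⟨k1, -⟩ := H.gcut (by omega) hdy ht1 h3 ht
      have k2 : T.X k (c x) (c 1) (c (t + 1)) = false := by
        cases hh : T.X k (c x) (c 1) (c (t + 1)) with
        | false => rfl
        | true =>
          have h5 := H.mono (s := e) hx hd (t := t + 1) (by omega) (by omega) (by omega) hh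
          rw [g2 (by omega)] at h5
          cases h5
      exact ct_3 (T := T) (k := k) (a := c 1) (s := c (t + 1)) (y := c y) (x := c x) (b := c n)
        (H.nd (L := [1, t + 1, y, x, n]) (by simp; omega) (by simp; omega))
        (H.conv 1 (t + 1) x n (by omega) (by omega) (by omega) (by omega) (by omega))
        hcv (H.tri x y (by omega) hx (by omega) (by omega) (by omega) hd) gy k2 k1
    · refine ⟨by omega, ?_⟩
      by_contra hxt
      obtain ⟨k1, -⟩ := H.gcut' (x := y) (e := t) (by omega) (by omega) hdy (by omega) htn ht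
      rcases Nat.lt_or_ge x t with h4 | h4
      · exact ct_4b (T := T) (k := k) (a := c 1) (y := c y) (x := c x) (t := c t) (b := c n)
          (H.nd (L := [1, y, x, t, n]) (by simp; omega) (by simp; omega)) hcv
          (H.conv 1 x t n (by omega) (by omega) (by omega) (by omega) (by omega))
          (H.conv y x t n (by omega) (by omega) (by omega) (by omega) (by omega))
          (H.tri x t (by omega) hx (by omega) (by omega) (by omega) hd) gy k1
      · have e1 : t = x := by omega
        rw [e1] at k1
        exact ct_4a (T := T) (k := k) (a := c 1) (y := c y) (x := c x) (b := c n) hN hcv gy k1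

/-- CUT-OFF LEMMA, mirror image -/
theorem cut' (H : DrH T k c n) {x e y : ℕ} (hx1 : 1 < x) (hx : x < n)
    (hd : T.X k (c x) (c 1) (c n) = true)
    (hex : x < e) (hen : e < n) (h : T.X k (c x) (c e) (c (e + 1)) = true)
    (hxy : x < y) (hye : y ≤ e) :
    T.X k (c y) (c 1) (c n) = true ∧ T.bef k (c n) (c 1) (c x) (c y) = true ∧
      ∀ t, 1 ≤ t → t < n → T.X k (c y) (c t) (c (t + 1)) = true → x ≤ t ∧ t ≤ e := by
  have e1 : n + 1 - 1 = n := by omega
  have e2 : n + 1 - n = 1 := by omega
  have e3 : n + 1 - (n + 1 - x) = x := by omega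
  have e4 : n + 1 - (n - e) = e + 1 := by omega
  have e5 : n + 1 - (n - e + 1) = e := by omega
  have e6 : n + 1 - (n + 1 - y) = y := by omega
  have h1 := H.rev.cut (x := n + 1 - x) (e := n - e) (y := n + 1 - y) (by omega)
    (by
      show T.X k (c (n + 1 - (n + 1 - x))) (c (n + 1 - 1)) (c (n + 1 - n)) = true
      rw [e1, e2, e3, flip2]
      exact hd)
    (by omega) (by omega)
    (by
      show T.X k (c (n + 1 - (n + 1 - x))) (c (n + 1 - (n - e))) (c (n + 1 - (n - e + 1))) = true
      rw [e3, e4, e5, flip2]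
      exact h)
    (by omega) (by omega)
  have h2 : T.X k (c (n + 1 - (n + 1 - y))) (c (n + 1 - 1)) (c (n + 1 - n)) = true ∧
    T.bef k (c (n + 1 - 1)) (c (n + 1 - n)) (c (n + 1 - (n + 1 - x))) (c (n + 1 - (n + 1 - y))) = true ∧
    ∀ t, 1 ≤ t → t < n → T.X k (c (n + 1 - (n + 1 - y))) (c (n + 1 - t)) (c (n + 1 - (t + 1))) = true →
      n - e ≤ t ∧ t < n + 1 - x := h1
  rw [e1, e2, e3, e6] at h2
  obtain ⟨a1, a2, a3⟩ := h2
  refine ⟨by rw [flip2]; exact a1, a2, ?_⟩
  intro t ht1 htn ht
  have h4 := a3 (n - t) (by omega) (by omega) (by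
    have e7 : n + 1 - (n - t) = t + 1 := by omega
    have e8 : n + 1 - (n - t + 1) = t := by omega
    rw [e7, e8, flip2]
    exact ht)
  omega

private theorem direct_aux : ∀ (d : ℕ) (c : ℕ → V), DrH T k c n → ∀ x e, x < n →
    T.X k (c x) (c 1) (c n) = true → 1 ≤ e → e + 1 < x → x ≤ e + d →
    T.X k (c x) (c e) (c (e + 1)) = true →
    ∃ y, e < y ∧ y < x ∧ T.X k (c y) (c 1) (c n) = true ∧
      ∀ t, 1 ≤ t → t < n → T.X k (c y) (c t) (c (t + 1)) = false := by
  intro d
  induction d with
  | zero => intro c _ x e _ _ _ _ h; omega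
  | succ d ih =>
    intro c H x e hx hd he hex hxd h
    obtain ⟨c1, -, c3⟩ := H.cut (y := e + 1) hx hd he hex h (by omega) (by omega)
    by_cases hn : ∀ t, 1 ≤ t → t < n → T.X k (c (e + 1)) (c t) (c (t + 1)) = false
    · exact ⟨e + 1, by omega, hex, c1, hn⟩
    · push Not at hn
      obtain ⟨t, ht1, htn, ht⟩ := hn
      have ht' : T.X k (c (e + 1)) (c t) (c (t + 1)) = true := by
        cases h : T.X k (c (e + 1)) (c t) (c (t + 1)) with
        | true => rfl
        | false => exact absurd h ht
      obtain ⟨b1, b2⟩ := c3 t ht1 htn ht'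
      have n1 : t ≠ e + 1 := by
        rintro rfl
        rw [FSH.adj0] at ht'
        cases ht'
      have n2 : t ≠ e := by
        rintro rfl
        rw [FSH.adj1] at ht'
        cases ht'
      have e1 : n + 1 - 1 = n := by omega
      have e2 : n + 1 - n = 1 := by omega
      have e3 : n + 1 - (n + 1 - (e + 1)) = e + 1 := by omega
      have e4 : n + 1 - (n - t) = t + 1 := by omega
      have e5 : n + 1 - (n - t + 1) = t := by omega
      obtain ⟨y, y1, y2, y3, y4⟩ := ih (fun i => c (n + 1 - i)) H.rev (n + 1 - (e + 1)) (n - t)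
        (by omega)
        (by
          show T.X k (c (n + 1 - (n + 1 - (e + 1)))) (c (n + 1 - 1)) (c (n + 1 - n)) = true
          rw [e1, e2, e3, flip2]
          exact c1)
        (by omega) (by omega) (by omega)
        (by
          show T.X k (c (n + 1 - (n + 1 - (e + 1)))) (c (n + 1 - (n - t))) (c (n + 1 - (n - t + 1))) = true
          rw [e3, e4, e5, flip2]
          exact ht')
      have y3' : T.X k (c (n + 1 - y)) (c (n + 1 - 1)) (c (n + 1 - n)) = true := y3
      have y4' : ∀ t, 1 ≤ t → t < n →
        T.X k (c (n + 1 - y)) (c (n + 1 - t)) (c (n + 1 - (t + 1))) = false := y4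
      rw [e1, e2, flip2] at y3'
      refine ⟨n + 1 - y, by omega, by omega, y3', ?_⟩
      intro s hs1 hsn
      have h5 := y4' (n - s) (by omega) (by omega)
      have e7 : n + 1 - (n - s) = s + 1 := by omega
      have e8 : n + 1 - (n - s + 1) = s := by omega
      rw [e7, e8, flip2] at h5
      exact h5

/-- some ray in the arc which is cut off ends directly -/
theorem direct (H : DrH T k c n) {x e : ℕ} (hx : x < n) (hd : T.X k (c x) (c 1) (c n) = true)
    (he : 1 ≤ e) (hex : e + 1 < x) (h : T.X k (c x) (c e) (c (e + 1)) = true) :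
    ∃ y, e < y ∧ y < x ∧ T.X k (c y) (c 1) (c n) = true ∧
      ∀ t, 1 ≤ t → t < n → T.X k (c y) (c t) (c (t + 1)) = false :=
  direct_aux x c H x e hx hd he hex (by omega) h

/-- the mirror image -/
theorem direct' (H : DrH T k c n) {x e : ℕ} (hx1 : 1 < x) (hx : x < n)
    (hd : T.X k (c x) (c 1) (c n) = true)
    (hex : x < e) (hen : e < n) (h : T.X k (c x) (c e) (c (e + 1)) = true) :
    ∃ y, x < y ∧ y ≤ e ∧ T.X k (c y) (c 1) (c n) = true ∧
      ∀ t, 1 ≤ t → t < n → T.X k (c y) (c t) (c (t + 1)) = false := by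
  have e1 : n + 1 - 1 = n := by omega
  have e2 : n + 1 - n = 1 := by omega
  have e3 : n + 1 - (n + 1 - x) = x := by omega
  have e4 : n + 1 - (n - e) = e + 1 := by omega
  have e5 : n + 1 - (n - e + 1) = e := by omega
  obtain ⟨y, y1, y2, y3, y4⟩ := H.rev.direct (x := n + 1 - x) (e := n - e) (by omega)
    (by
      show T.X k (c (n + 1 - (n + 1 - x))) (c (n + 1 - 1)) (c (n + 1 - n)) = true
      rw [e1, e2, e3, flip2]
      exact hd)
    (by omega) (by omega)
    (by
      show T.X k (c (n + 1 - (n + 1 - x))) (c (n + 1 - (n - e))) (c (n + 1 - (n - e + 1))) = true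
      rw [e3, e4, e5, flip2]
      exact h)
  have y3' : T.X k (c (n + 1 - y)) (c (n + 1 - 1)) (c (n + 1 - n)) = true := y3
  have y4' : ∀ t, 1 ≤ t → t < n →
    T.X k (c (n + 1 - y)) (c (n + 1 - t)) (c (n + 1 - (t + 1))) = false := y4
  rw [e1, e2, flip2] at y3'
  refine ⟨n + 1 - y, by omega, by omega, y3', ?_⟩
  intro s hs1 hsn
  have h5 := y4' (n - s) (by omega) (by omega)
  have e7 : n + 1 - (n - s) = s + 1 := by omega
  have e8 : n + 1 - (n - s + 1) = s := by omega
  rw [e7, e8, flip2] at h5
  exact h5

/-- a ray through the door which crosses no edge of the path between `c 1` and `c x` has `g = false` -/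
theorem gfalse (H : DrH T k c n) {x : ℕ} (hx : x < n) (hd : T.X k (c x) (c 1) (c n) = true)
    (h : ∀ t, 1 ≤ t → t + 1 < x → T.X k (c x) (c t) (c (t + 1)) = false) :
    ∀ t, 1 < t → t < x → T.X k (c x) (c 1) (c t) = false := by
  intro t
  induction t with
  | zero => intro h1; omega
  | succ t ih =>
    intro h1 h2
    rcases Nat.lt_or_ge 1 t with h3 | h3
    · have h4 := H.xr hx hd h3 (Nat.lt_succ_self t) h2
      have h4' : T.X k (c x) (c t) (c (t + 1)) =
        (T.X k (c x) (c 1) (c t) ^^ T.X k (c x) (c 1) (c (t + 1))) := h4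
      rw [ih h3 (by omega), h t (by omega) h2, Bool.false_xor] at h4'
      exact h4'.symm
    · have e : t = 1 := by omega
      rw [e] at h2 ⊢
      exact h 1 le_rfl h2

/-- the order on the door -/
theorem ord (H : DrH T k c n) {x z : ℕ} (hx : 1 < x) (hxz : x < z) (hz : z < n)
    (hdx : T.X k (c x) (c 1) (c n) = true) (hdz : T.X k (c z) (c 1) (c n) = true)
    (h1 : T.X k (c z) (c 1) (c x) = false) (h2 : T.X k (c x) (c n) (c z) = false) :
    T.bef k (c 1) (c n) (c x) (c z) = true := by
  cases hh : T.bef k (c 1) (c n) (c x) (c z) with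
  | true => rfl
  | false =>
    exact (ct_5 (T := T) (k := k) (a := c 1) (x := c x) (z := c z) (b := c n)
      (H.nd (L := [1, x, z, n]) (by simp; omega) (by simp; omega))
      (H.conv 1 x z n (by omega) (by omega) (by omega) (by omega) (by omega))
      hdx hdz h1 h2 hh).elim

/-- the order on the exit edge -/
theorem same (H : DrH T k c n) {x y t : ℕ} (ht : 1 ≤ t) (hty : t + 1 < y) (hyx : y < x) (hx : x < n)
    (hd : T.X k (c x) (c 1) (c n) = true) (h1 : T.X k (c x) (c t) (c (t + 1)) = true)
    (h2 : T.X k (c y) (c t) (c (t + 1)) = true) : T.bef k (c t) (c (t + 1)) (c x) (c y) = true := by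
  cases hh : T.bef k (c t) (c (t + 1)) (c x) (c y) with
  | true => rfl
  | false =>
    exfalso
    rcases Nat.lt_or_ge 1 t with h3 | h3
    · exact ct_6 (T := T) (k := k) (a := c 1) (t := c t) (s := c (t + 1)) (y := c y) (x := c x) (b := c n)
        (H.nd (L := [1, t, t + 1, y, x, n]) (by simp; omega) (by simp; omega))
        (H.conv 1 t (t + 1) n (by omega) (by omega) (by omega) (by omega) (by omega))
        (H.conv t (t + 1) y x (by omega) (by omega) (by omega) (by omega) (by omega))
        (H.conv t (t + 1) x n (by omega) (by omega) (by omega) (by omega) (by omega))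
        (H.conv t y x n (by omega) (by omega) (by omega) (by omega) (by omega))
        (H.tri x t (by omega) hx (by omega) (by omega) (by omega) hd)
        (H.tri x y (by omega) hx (by omega) (by omega) (by omega) hd) h1 h2 hh
    · have e : t = 1 := by omega
      subst e
      exact ct_6a (T := T) (k := k) (a := c 1) (s := c (1 + 1)) (y := c y) (x := c x) (b := c n)
        (H.nd (L := [1, 1 + 1, y, x, n]) (by simp; omega) (by simp; omega))
        (H.conv 1 (1 + 1) x n (by omega) (by omega) (by omega) (by omega) (by omega))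
        (H.conv 1 y x n (by omega) (by omega) (by omega) (by omega) (by omega))
        (H.conv (1 + 1) y x n (by omega) (by omega) (by omega) (by omega) (by omega))
        (H.tri x (1 + 1) (by omega) hx (by omega) (by omega) (by omega) hd)
        (H.tri x y (by omega) hx (by omega) (by omega) (by omega) hd) h1 hh

end DrH

end H30P
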