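import Pool.Agent.Lib.H40FS.CUT
import Pool.Agent.Lib.H30P.Pg

/-!
# H40FS: the cut-off lemma for polygons in the sense of H30P.Pg

`DrH.of_cvx`: the polygon `c` with the door `c d, c (d + 1)` of `k` gives `DrH T k (fun i => c (d + i)) n`.
-/

set_option autoImplicit false

namespace H30P

open H53P

variable {V : Type*}

theorem Per.inj' {c : ℕ → V} {n : ℕ} (h : Per c n) {i j : ℕ} (h1 : i < j) (h2 : j < i + n) :
    c i ≠ c j := by
  have h3 := h.three
  have hp : ∀ q m, c (m + q * n) = c m := by
    intro q
    induction q with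
    | zero => intro m; simp
    | succ q ih =>
      intro m
      have e : m + (q + 1) * n = (m + q * n) + n := by ring
      rw [e, h.per, ih]
  have hm : ∀ m, c m = c (m % n) := by
    intro m
    have e : m = m % n + m / n * n := by
      have := Nat.mod_add_div m n
      rw [Nat.mul_comm n] at this
      exact this.symm
    conv_lhs => rw [e]
    exact hp _ _
  intro he
  rw [hm i, hm j] at he
  have h4 := h.inj _ (Nat.mod_lt _ (by omega)) _ (Nat.mod_lt _ (by omega)) he
  have h5 := Nat.mod_add_div i n
  have h6 := Nat.mod_add_div j n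
  rw [h4] at h5
  have h7 : n * (j / n) = n * (i / n) + (j - i) := by omega
  have h8 : i / n < j / n := by
    by_contra hc
    have := Nat.mul_le_mul_left n (Nat.le_of_not_lt hc)
    omega
  have h9 : n * (i / n + 1) ≤ n * (j / n) := Nat.mul_le_mul_left n h8
  rw [Nat.mul_add, Nat.mul_one] at h9
  omega

theorem DrH.of_cvx {T : Table V} {c : ℕ → V} {n : ℕ} (hc : Per c n) (hv : Cvx T c n) {k : V}
    (hk : ∀ i, c i ≠ k) (d : ℕ)
    (tri : ∀ i j, T.X k (c i) (c d) (c (d + 1)) = true → c j ≠ c i → c j ≠ c d → c j ≠ c (d + 1) →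
      T.crT (c i) (c d) (c (d + 1)) k (c j) = true) : DrH T k (fun i => c (d + i)) n where
  hn := hc.three
  hk i _ _ := hk _
  hc i j _ h2 h3 := hc.inj' (by omega) (by omega)
  conv i j k l h1 h2 h3 h4 h5 := hv _ _ _ _ (by omega) (by omega) (by omega) (by omega)
  tri x z h1 h2 h3 h4 h5 h6 := by
    have h6' : T.X k (c (d + x)) (c (d + 1)) (c (d + n)) = true := h6
    rw [hc.per, flip2] at h6'
    show T.crT (c (d + x)) (c (d + 1)) (c (d + n)) k (c (d + z)) = true
    rw [hc.per, crT_swap]
    have hz1 : c (d + z) ≠ c (d + x) := by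
      rcases Nat.lt_or_ge z x with h | h
      · exact hc.inj' (by omega) (by omega)
      · exact (hc.inj' (i := d + x) (j := d + z) (by omega) (by omega)).symm
    have hz2 : c (d + z) ≠ c d := (hc.inj' (i := d) (j := d + z) (by omega) (by omega)).symm
    have hz3 : c (d + z) ≠ c (d + 1) :=
      (hc.inj' (i := d + 1) (j := d + z) (by omega) (by omega)).symm
    exact tri (d + x) (d + z) h6' hz1 hz2 hz3

end H30P
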