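import Pool.Agent.Lib.H40FS.CUT
import Pool.Agent.Lib.H40FS.F2

/-!
# H40FS: the key lemma (helper33, helper7): there are no states

Two convex polygons `p 1, .., p n` (door `p_1 p_n`) and `q 1, .., q m` (door `q_1 q_m`). The vertices `p s`,
`PA s`, are poles for `q`, the vertices `q t`, `PB t`, are poles for `p`. `Dir T c n k x`: the ray `k c_x`
crosses the door `c_1 c_n` and no other side. A state is a pair `s, t` such that `p_s q_t` is direct in `q`
(state 1) or direct in `p` (state 2). `KSet`: in a state both doors are crossed, and they are the doors of the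
two poles (`st`); a direct ray in the arc which is cut off belongs to the admissible vertices (`a2`, `b2`); no
pair is direct at both ends (`fin`); the orders on the two doors agree (`o1`, `o2`).
THEOREM `KSet.none1`, `KSet.none2`: there are no states.
-/

set_option autoImplicit false

namespace H30P

open H53P

variable {V : Type*}

/-- the ray `k c_x` crosses the door `c_1 c_n` and no other side -/
def Dir (T : Table V) (c : ℕ → V) (n : ℕ) (k : V) (x : ℕ) : Prop :=
  T.X k (c x) (c 1) (c n) = true ∧ ∀ j, 1 ≤ j → j < n → T.X k (c x) (c j) (c (j + 1)) = false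

theorem bef_swap (T : Table V) {k a b x y : V} (hN : [k, a, b, x, y].Nodup) (h1 : T.X k x a b = true)
    (h2 : T.X k y a b = true) : T.bef k b a x y = T.bef k a b y x := by
  cases h3 : T.bef k b a x y with
  | true =>
    cases h4 : T.bef k a b y x with
    | true => rfl
    | false => exact (ky_s1 (T := T) hN h2 h3 h4).elim
  | false =>
    cases h4 : T.bef k a b y x with
    | false => rfl
    | true => exact (ky_s0 (T := T) hN h1 h3 h4).elim

theorem bef_anti (T : Table V) {k a b x y : V} (hN : [k, a, b, x, y].Nodup) (h1 : T.X k x a b = true)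
    (h2 : T.X k y a b = true) : T.bef k a b x y = !(T.bef k a b y x) := by
  cases h3 : T.bef k a b x y with
  | true =>
    cases h4 : T.bef k a b y x with
    | true => exact (ky_a1 (T := T) hN h3 h4).elim
    | false => rfl
  | false =>
    cases h4 : T.bef k a b y x with
    | false => exact (ky_a0 (T := T) hN h1 h2 h3 h4).elim
    | true => rfl

namespace DrH

variable {T : Table V} {k g : V} {c : ℕ → V} {n : ℕ}

/-- a direct ray has `g = false` below `x` -/
theorem dir_low (H : DrH T k c n) {x : ℕ} (hx : x < n) (hd : Dir T c n k x) {t : ℕ} (ht : 1 < t)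
    (htx : t < x) : T.X k (c x) (c 1) (c t) = false :=
  H.gfalse hx hd.1 (fun j h1 h2 => hd.2 j h1 (by omega)) t ht htx

/-- a direct ray has `g = false` above `x` -/
theorem dir_up (H : DrH T k c n) {x : ℕ} (hx1 : 1 < x) (hx : x < n) (hd : Dir T c n k x) {t : ℕ}
    (htx : x < t) (ht : t < n) : T.X k (c x) (c t) (c n) = false := by
  have e1 : n + 1 - 1 = n := by omega
  have e2 : n + 1 - n = 1 := by omega
  have e3 : n + 1 - (n + 1 - x) = x := by omega
  have h := H.rev.gfalse (x := n + 1 - x) (by omega)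
    (by
      show T.X k (c (n + 1 - (n + 1 - x))) (c (n + 1 - 1)) (c (n + 1 - n)) = true
      rw [e1, e2, e3, flip2]
      exact hd.1)
    (by
      intro j h1 h2
      show T.X k (c (n + 1 - (n + 1 - x))) (c (n + 1 - j)) (c (n + 1 - (j + 1))) = false
      have e4 : n + 1 - j = (n - j) + 1 := by omega
      have e5 : n + 1 - (j + 1) = n - j := by omega
      rw [e3, e4, e5, flip2]
      exact hd.2 (n - j) (by omega) (by omega)) (n + 1 - t) (by omega) (by omega)
  have h' : T.X k (c (n + 1 - (n + 1 - x))) (c (n + 1 - 1)) (c (n + 1 - (n + 1 - t))) = false := h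
  have e6 : n + 1 - (n + 1 - t) = t := by omega
  rw [e1, e3, e6, flip2] at h'
  exact h'

theorem nd2 (H : DrH T k c n) (H' : DrH T g c n) (hkg : k ≠ g) {L : List ℕ} (hL : L.Pairwise (· < ·))
    (hb : ∀ i ∈ L, 1 ≤ i ∧ i ≤ n) : (k :: g :: L.map c).Nodup := by
  have h1 := H.nd hL hb
  have h2 := H'.nd hL hb
  rw [List.nodup_cons] at h1 ⊢
  refine ⟨?_, h2⟩
  rw [List.mem_cons, not_or]
  exact ⟨hkg, h1.1⟩

/-- (M) two poles, the same vertex: `k` is direct, `g` leaves above `x`; then `k` is nearer to `c_1` -/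
theorem up (H : DrH T k c n) (H' : DrH T g c n) (hkg : k ≠ g) {x j : ℕ} (hx1 : 1 < x) (hx : x < n)
    (hd : Dir T c n k x) (hg : T.X g (c x) (c 1) (c n) = true) (hj : x < j) (hjn : j < n)
    (hy : T.X g (c x) (c j) (c (j + 1)) = true) (hb : T.bef (c x) (c 1) (c n) g k = true) : False := by
  rcases Nat.lt_or_ge (j + 1) n with h3 | h3
  · exact ky_u1 (T := T) (k := k) (g := g) (a := c 1) (x := c x) (s := c j) (t := c (j + 1)) (b := c n)
      (H.nd2 H' hkg (L := [1, x, j, j + 1, n]) (by simp; omega) (by simp; omega))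
      (H.conv 1 j (j + 1) n (by omega) (by omega) (by omega) (by omega) (by omega))
      (H.conv x j (j + 1) n (by omega) (by omega) (by omega) (by omega) (by omega))
      hd.1 (H.tri x (j + 1) hx1 hx (by omega) (by omega) (by omega) hd.1)
      (hd.2 j (by omega) hjn) (H.dir_up hx1 hx hd (by omega) h3)
      (H'.tri x (j + 1) hx1 hx (by omega) (by omega) (by omega) hg) hy hb
  · have e : j + 1 = n := by omega
    rw [e] at hy
    exact ky_u2 (T := T) (k := k) (g := g) (a := c 1) (x := c x) (s := c j) (b := c n)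
      (H.nd2 H' hkg (L := [1, x, j, n]) (by simp; omega) (by simp; omega))
      (H.conv 1 x j n (by omega) (by omega) (by omega) (by omega) (by omega))
      hd.1 (H.tri x j hx1 hx (by omega) (by omega) (by omega) hd.1)
      (H.dir_up hx1 hx hd hj (by omega)) hy hb

/-- (M) two poles, the same vertex: `k` is direct, `g` leaves below `x`; then `g` is nearer to `c_1` -/
theorem down (H : DrH T k c n) (H' : DrH T g c n) (hkg : k ≠ g) {x j : ℕ} (hx1 : 1 < x) (hx : x < n)
    (hd : Dir T c n k x) (hg : T.X g (c x) (c 1) (c n) = true) (hj1 : 1 ≤ j) (hj : j + 1 < x)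
    (hy : T.X g (c x) (c j) (c (j + 1)) = true) (hb : T.bef (c x) (c 1) (c n) k g = true) : False := by
  rcases Nat.lt_or_ge 1 j with h3 | h3
  · exact ky_d1 (T := T) (k := k) (g := g) (a := c 1) (s := c j) (t := c (j + 1)) (x := c x) (b := c n)
      (H.nd2 H' hkg (L := [1, j, j + 1, x, n]) (by simp; omega) (by simp; omega))
      (H.conv 1 j (j + 1) n (by omega) (by omega) (by omega) (by omega) (by omega))
      (H.conv j (j + 1) x n (by omega) (by omega) (by omega) (by omega) (by omega))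
      (H.tri x (j + 1) hx1 hx (by omega) (by omega) (by omega) hd.1)
      (H.dir_low hx hd h3 (by omega)) (hd.2 j (by omega) (by omega))
      (H'.tri x j hx1 hx (by omega) (by omega) (by omega) hg)
      (H'.tri x (j + 1) hx1 hx (by omega) (by omega) (by omega) hg) hy hb
  · have e : j = 1 := by omega
    subst e
    exact ky_d2 (T := T) (k := k) (g := g) (a := c 1) (t := c (1 + 1)) (x := c x) (b := c n)
      (H.nd2 H' hkg (L := [1, 1 + 1, x, n]) (by simp; omega) (by simp; omega))
      (H.conv 1 (1 + 1) x n (by omega) (by omega) (by omega) (by omega) (by omega))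
      (H.tri x (1 + 1) hx1 hx (by omega) (by omega) (by omega) hd.1)
      (H.dir_low hx hd (by omega) (by omega))
      (H'.tri x (1 + 1) hx1 hx (by omega) (by omega) (by omega) hg) hy hb

end DrH

/-- the hypotheses of the key lemma -/
structure KSet (T : Table V) (p : ℕ → V) (n : ℕ) (q : ℕ → V) (m : ℕ) (PA PB : ℕ → Prop) : Prop where
  pa : ∀ s, PA s → 1 < s ∧ s < n
  pb : ∀ t, PB t → 1 < t ∧ t < m
  /-- in a state both doors are crossed and are the doors of the two poles -/
  st : ∀ s t, PA s → PB t → Dir T q m (p s) t ∨ Dir T p n (q t) s →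
    T.X (q t) (p s) (p 1) (p n) = true ∧ T.X (p s) (q t) (q 1) (q m) = true ∧ DrH T (q t) p n ∧
      DrH T (p s) q m
  /-- the arc which is cut off in `p` -/
  a2 : ∀ s t j s', PA s → PB t → Dir T q m (p s) t → 1 ≤ j → j < n →
    T.X (q t) (p s) (p j) (p (j + 1)) = true → (j < s' ∧ s' < s) ∨ (s < s' ∧ s' ≤ j) →
      Dir T p n (q t) s' → PA s'
  /-- the arc which is cut off in `q` -/
  b2 : ∀ s t j t', PA s → PB t → Dir T p n (q t) s → 1 ≤ j → j < m →
    T.X (p s) (q t) (q j) (q (j + 1)) = true → (j < t' ∧ t' < t) ∨ (t < t' ∧ t' ≤ j) →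
      Dir T q m (p s) t' → PB t'
  fin : ∀ s t, PA s → PB t → Dir T q m (p s) t → Dir T p n (q t) s → False
  o1 : ∀ s s' t, PA s → PA s' → PB t → s ≠ s' → Dir T q m (p s) t → Dir T p n (q t) s' →
    T.bef (q t) (p 1) (p n) (p s') (p s) = T.bef (q t) (q 1) (q m) (p s') (p s)
  o2 : ∀ s t t', PA s → PB t → PB t' → t ≠ t' → Dir T p n (q t) s → Dir T q m (p s) t' →
    T.bef (p s) (p 1) (p n) (q t) (q t') = T.bef (p s) (q 1) (q m) (q t) (q t')

namespace KSet

variable {T : Table V} {p q : ℕ → V} {n m : ℕ} {PA PB : ℕ → Prop}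

private theorem nd5 {k a x b y : V} (h2 : [x, a, k, b].Nodup) (h3 : [y, a, k, b].Nodup) (hne : x ≠ y) :
    [k, a, b, y, x].Nodup ∧ [k, a, b, x, y].Nodup := by
  simp only [List.nodup_cons, List.mem_cons, List.not_mem_nil, not_or, or_false, not_false_iff,
    List.nodup_nil, and_true] at h2 h3 ⊢
  obtain ⟨⟨a1, a2, a3⟩, ⟨a4, a5⟩, a6⟩ := h2
  obtain ⟨⟨b1, b2, b3⟩, -, -⟩ := h3
  exact ⟨⟨⟨Ne.symm a4, a6, Ne.symm b2, Ne.symm a2⟩, ⟨a5, Ne.symm b1, Ne.symm a1⟩,
    ⟨Ne.symm b3, Ne.symm a3⟩, Ne.symm hne⟩, ⟨⟨Ne.symm a4, a6, Ne.symm a2, Ne.symm b2⟩,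
    ⟨a5, Ne.symm a1, Ne.symm b1⟩, ⟨Ne.symm a3, Ne.symm b3⟩, hne⟩⟩

private theorem ex {c : ℕ → V} {k : V} {x l : ℕ} (hd : T.X k (c x) (c 1) (c l) = true)
    (h : ¬ Dir T c l k x) : ∃ j, 1 ≤ j ∧ j < l ∧ T.X k (c x) (c j) (c (j + 1)) = true ∧ j ≠ x ∧
      j + 1 ≠ x := by
  have h1 : ∃ j, 1 ≤ j ∧ j < l ∧ T.X k (c x) (c j) (c (j + 1)) = true := by
    by_contra hc
    apply h
    refine ⟨hd, fun j h1 h2 => ?_⟩
    cases h3 : T.X k (c x) (c j) (c (j + 1)) with
    | false => rfl
    | true => exact absurd ⟨j, h1, h2, h3⟩ hc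
  obtain ⟨j, h1, h2, h3⟩ := h1
  refine ⟨j, h1, h2, h3, ?_, ?_⟩
  · rintro rfl
    rw [FSH.adj0] at h3
    cases h3
  · intro h
    rw [h, FSH.adj1] at h3
    cases h3

/-- the states of type 1 which leave `p` above: they go up for ever -/
theorem goup (K : KSet T p n q m PA PB) : ∀ (d s t j : ℕ), n ≤ s + d → PA s → PB t →
    Dir T q m (p s) t → s < j → j < n → T.X (q t) (p s) (p j) (p (j + 1)) = true → False := by
  intro d
  induction d with
  | zero =>
    intro s t j h1 h2
    have := K.pa s h2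
    omega
  | succ d ih =>
    intro s t j hd ha hb h1 hsj hjn hx
    obtain ⟨ps1, ps2⟩ := K.pa s ha
    obtain ⟨pt1, pt2⟩ := K.pb t hb
    obtain ⟨x1, x2, D1, D2⟩ := K.st s t ha hb (Or.inl h1)
    obtain ⟨s', c1, c2, c3, c4⟩ := D1.direct' ps1 ps2 x1 hsj hjn hx
    have S2 : Dir T p n (q t) s' := ⟨c3, c4⟩
    have ha' := K.a2 s t j s' ha hb h1 (by omega) hjn hx (Or.inr ⟨c1, c2⟩) S2
    obtain ⟨ps1', ps2'⟩ := K.pa s' ha'
    obtain ⟨-, bf, -⟩ := D1.cut' ps1 ps2 x1 hsj hjn hx c1 c2
    have hNp : (q t :: [1, s, s', n].map p).Nodup := D1.nd (L := [1, s, s', n]) (by simp; omega) (by simp; omega)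
    have hN' : [q t, p 1, p n, p s, p s'].Nodup := by
      have h : [q t, p 1, p s, p s', p n].Nodup := hNp
      simp only [List.nodup_cons, List.mem_cons, List.not_mem_nil, not_or, or_false, not_false_iff,
        List.nodup_nil, and_true] at h ⊢
      tauto
    rw [bef_swap T hN' x1 c3] at bf
    rw [K.o1 s s' t ha ha' hb (by omega) h1 S2] at bf
    obtain ⟨-, x2', -, D2'⟩ := K.st s' t ha' hb (Or.inr S2)
    have hne : p s ≠ p s' := D1.hc s s' (by omega) c1 (by omega)
    obtain ⟨j', j1, j2, j3, j4, j5⟩ := ex x2' fun h => K.fin s' t ha' hb h S2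
    have hlow : j' + 1 < t := by
      by_contra hcon
      exact D2.up D2' hne pt1 pt2 h1 x2' (by omega) j2 j3 bf
    obtain ⟨t', e1, e2, e3, e4⟩ := D2'.direct pt2 x2' j1 hlow j3
    have S1' : Dir T q m (p s') t' := ⟨e3, e4⟩
    have hb' := K.b2 s' t j' t' ha' hb S2 j1 j2 j3 (Or.inl ⟨e1, e2⟩) S1'
    obtain ⟨-, bf2, -⟩ := D2'.cut pt2 x2' j1 hlow j3 e1 e2
    rw [← K.o2 s' t t' ha' hb hb' (by omega) S2 S1'] at bf2
    obtain ⟨x1'', -, D1'', -⟩ := K.st s' t' ha' hb' (Or.inl S1')
    have hneq : q t ≠ q t' := (D2.hc t' t (by omega) e2 (by omega)).symm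
    obtain ⟨j'', k1, k2, k3, k4, k5⟩ := ex x1'' fun h => K.fin s' t' ha' hb' S1' h
    have hup : s' < j'' := by
      by_contra hcon
      exact D1.down D1'' hneq ps1' ps2' S2 x1'' k1 (by omega) k3 bf2
    exact ih s' t' j'' (by omega) ha' hb' S1' hup k2 k3

/-- the states of type 1 which leave `p` below: they go down for ever -/
theorem godown (K : KSet T p n q m PA PB) : ∀ (d s t j : ℕ), s ≤ d → PA s → PB t →
    Dir T q m (p s) t → 1 ≤ j → j + 1 < s → T.X (q t) (p s) (p j) (p (j + 1)) = true → False := by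
  intro d
  induction d with
  | zero =>
    intro s t j h1 h2
    have := K.pa s h2
    omega
  | succ d ih =>
    intro s t j hd ha hb h1 hj1 hjs hx
    obtain ⟨ps1, ps2⟩ := K.pa s ha
    obtain ⟨pt1, pt2⟩ := K.pb t hb
    obtain ⟨x1, x2, D1, D2⟩ := K.st s t ha hb (Or.inl h1)
    obtain ⟨s', c1, c2, c3, c4⟩ := D1.direct ps2 x1 hj1 hjs hx
    have S2 : Dir T p n (q t) s' := ⟨c3, c4⟩
    have ha' := K.a2 s t j s' ha hb h1 hj1 (by omega) hx (Or.inl ⟨c1, c2⟩) S2
    obtain ⟨ps1', ps2'⟩ := K.pa s' ha'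
    obtain ⟨-, bf, -⟩ := D1.cut ps2 x1 hj1 hjs hx c1 c2
    have hNp : (q t :: [1, s', s, n].map p).Nodup := D1.nd (L := [1, s', s, n]) (by simp; omega) (by simp; omega)
    have hN' : [q t, p 1, p n, p s', p s].Nodup := by
      have h : [q t, p 1, p s', p s, p n].Nodup := hNp
      simp only [List.nodup_cons, List.mem_cons, List.not_mem_nil, not_or, or_false, not_false_iff,
        List.nodup_nil, and_true] at h ⊢
      tauto
    obtain ⟨-, x2', -, D2'⟩ := K.st s' t ha' hb (Or.inr S2)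
    have hne : p s ≠ p s' := (D1.hc s' s (by omega) c2 (by omega)).symm
    have hNq : [q t, q 1, q m, p s', p s].Nodup := by
      have h2 : [p s, q 1, q t, q m].Nodup := D2.nd (L := [1, t, m]) (by simp; omega) (by simp; omega)
      have h3 : [p s', q 1, q t, q m].Nodup := D2'.nd (L := [1, t, m]) (by simp; omega) (by simp; omega)
      exact (nd5 h2 h3 hne).1
    have bq : T.bef (q t) (q 1) (q m) (p s) (p s') = true := by
      have h5 := K.o1 s s' t ha ha' hb (by omega) h1 S2
      rw [bef_anti T hN' c3 x1, bf] at h5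
      have y1 : T.X (q t) (p s) (q 1) (q m) = true := by rw [T.symm1]; exact x2
      have y2 : T.X (q t) (p s') (q 1) (q m) = true := by rw [T.symm1]; exact x2'
      rw [bef_anti T hNq y2 y1] at h5
      cases h6 : T.bef (q t) (q 1) (q m) (p s) (p s') with
      | true => rfl
      | false =>
        rw [h6] at h5
        cases h5
    obtain ⟨j', j1, j2, j3, j4, j5⟩ := ex x2' fun h => K.fin s' t ha' hb h S2
    have hup : t < j' := by
      by_contra hcon
      exact D2.down D2' hne pt1 pt2 h1 x2' j1 (by omega) j3 bq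
    obtain ⟨t', e1, e2, e3, e4⟩ := D2'.direct' pt1 pt2 x2' hup j2 j3
    have S1' : Dir T q m (p s') t' := ⟨e3, e4⟩
    have hb' := K.b2 s' t j' t' ha' hb S2 j1 j2 j3 (Or.inr ⟨e1, e2⟩) S1'
    obtain ⟨-, bf2, -⟩ := D2'.cut' pt1 pt2 x2' hup j2 j3 e1 e2
    obtain ⟨x1'', -, D1'', -⟩ := K.st s' t' ha' hb' (Or.inl S1')
    have hneq : q t ≠ q t' := D2.hc t t' (by omega) e1 (by omega)
    have hM : [p s', q 1, q m, q t, q t'].Nodup := by
      have h : [p s', q 1, q t, q t', q m].Nodup :=
        D2'.nd (L := [1, t, t', m]) (by simp; omega) (by simp; omega)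
      simp only [List.nodup_cons, List.mem_cons, List.not_mem_nil, not_or, or_false, not_false_iff,
        List.nodup_nil, and_true] at h ⊢
      tauto
    have hM' : [p s', p 1, p n, q t, q t'].Nodup := by
      have h2 : [q t, p 1, p s', p n].Nodup := D1.nd (L := [1, s', n]) (by simp; omega) (by simp; omega)
      have h3 : [q t', p 1, p s', p n].Nodup := D1''.nd (L := [1, s', n]) (by simp; omega) (by simp; omega)
      exact (nd5 h2 h3 hneq).2
    rw [bef_swap T hM x2' e3] at bf2
    have bp : T.bef (p s') (p 1) (p n) (q t') (q t) = true := by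
      have h5 := K.o2 s' t t' ha' hb hb' (by omega) S2 S1'
      rw [bef_anti T hM x2' e3, bf2] at h5
      have y1 : T.X (p s') (q t) (p 1) (p n) = true := by rw [T.symm1]; exact c3
      have y2 : T.X (p s') (q t') (p 1) (p n) = true := by rw [T.symm1]; exact x1''
      rw [bef_anti T hM' y1 y2] at h5
      cases h6 : T.bef (p s') (p 1) (p n) (q t') (q t) with
      | true => rfl
      | false =>
        rw [h6] at h5
        cases h5
    obtain ⟨j'', k1, k2, k3, k4, k5⟩ := ex x1'' fun h => K.fin s' t' ha' hb' S1' h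
    have hlo : j'' + 1 < s' := by
      by_contra hcon
      exact D1.up D1'' hneq ps1' ps2' S2 x1'' (by omega) k2 k3 bp
    exact ih s' t' j'' (by omega) ha' hb' S1' k1 hlo k3

/-- there is no state of type 1 -/
theorem none1 (K : KSet T p n q m PA PB) {s t : ℕ} (ha : PA s) (hb : PB t) (h1 : Dir T q m (p s) t) :
    False := by
  obtain ⟨x1, -, -, -⟩ := K.st s t ha hb (Or.inl h1)
  obtain ⟨j, k1, k2, k3, k4, k5⟩ := ex x1 fun h => K.fin s t ha hb h1 h
  rcases Nat.lt_or_ge s j with h | h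
  · exact K.goup n s t j (by omega) ha hb h1 h k2 k3
  · exact K.godown s s t j le_rfl ha hb h1 k1 (by omega) k3

/-- there is no state of type 2 -/
theorem none2 (K : KSet T p n q m PA PB) {s t : ℕ} (ha : PA s) (hb : PB t) (h2 : Dir T p n (q t) s) :
    False := by
  obtain ⟨-, x2, -, D2⟩ := K.st s t ha hb (Or.inr h2)
  obtain ⟨pt1, pt2⟩ := K.pb t hb
  obtain ⟨j, k1, k2, k3, k4, k5⟩ := ex x2 fun h => K.fin s t ha hb h h2
  rcases Nat.lt_or_ge t j with h | h
  · obtain ⟨t', e1, e2, e3, e4⟩ := D2.direct' pt1 pt2 x2 h k2 k3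
    exact K.none1 ha (K.b2 s t j t' ha hb h2 k1 k2 k3 (Or.inr ⟨e1, e2⟩) ⟨e3, e4⟩) ⟨e3, e4⟩
  · obtain ⟨t', e1, e2, e3, e4⟩ := D2.direct pt2 x2 k1 (by omega) k3
    exact K.none1 ha (K.b2 s t j t' ha hb h2 k1 k2 k3 (Or.inl ⟨e1, e2⟩) ⟨e3, e4⟩) ⟨e3, e4⟩

end KSet

end H30P
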